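import Pool.Agent.Q170.GG.Tree

/-!
# Gersten's group and its action on a tree
-/

set_option autoImplicit false
set_option linter.dupNamespace false

open Set Function

namespace Q170.GG

/-- the generators -/
abbrev ga : F3 := lt (0, true)
abbrev gb : F3 := lt (1, true)
abbrev gc : F3 := lt (2, true)

theorem lt_of (i : Fin 3) : lt (i, true) = FreeGroup.of i := rfl

/-- the monodromy: `a ↦ a`, `b ↦ b a`, `c ↦ c a⁻¹` -/
noncomputable def mon : MulAut F3 :=
  MonoidHom.toMulEquiv (FreeGroup.lift ![ga, gb * ga, gc * ga⁻¹])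
    (FreeGroup.lift ![ga, gb * ga⁻¹, gc * ga]) (by
      refine FreeGroup.ext_hom _ _ fun i => ?_
      fin_cases i <;> simp [lt_of])
    (by
      refine FreeGroup.ext_hom _ _ fun i => ?_
      fin_cases i <;> simp [lt_of])

theorem mon_a : mon ga = ga := by
  show FreeGroup.lift ![ga, gb * ga, gc * ga⁻¹] (FreeGroup.of 0) = _
  simp

theorem mon_b : mon gb = gb * ga := by
  show FreeGroup.lift ![ga, gb * ga, gc * ga⁻¹] (FreeGroup.of 1) = _
  simp

theorem mon_c : mon gc = gc * ga⁻¹ := by
  show FreeGroup.lift ![ga, gb * ga, gc * ga⁻¹] (FreeGroup.of 2) = _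
  simp

noncomputable def ph : Multiplicative ℤ →* MulAut F3 := zpowersHom (MulAut F3) mon

theorem ph_one : ph (Multiplicative.ofAdd 1) = mon := by
  unfold ph
  rw [zpowersHom_apply]
  simp

theorem ph_ofAdd (k : ℤ) : ph (Multiplicative.ofAdd k) = mon ^ k := by
  unfold ph
  rw [zpowersHom_apply]
  rfl

theorem ph_HA (k : Multiplicative ℤ) {x : F3} (hx : x ∈ HA) : ph k x = x := by
  obtain ⟨i, rfl⟩ := Subgroup.mem_zpowers_iff.1 hx
  have h1 : ∀ k : ℤ, (mon ^ k) ga = ga := by
    intro k
    induction k using Int.induction_on with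
    | zero => rfl
    | succ n ih => rw [zpow_add_one, MulAut.mul_apply, mon_a, ih]
    | pred n ih =>
      rw [zpow_sub_one, MulAut.mul_apply]
      have : mon⁻¹ ga = ga := by
        rw [MulAut.inv_def, MulEquiv.symm_apply_eq, mon_a]
      rw [this, ih]
  have h2 : ph k ga = ga := by
    have := ph_ofAdd (Multiplicative.toAdd k)
    rw [ofAdd_toAdd] at this
    rw [this]
    exact h1 _
  rw [map_zpow, h2]

/-- the values of the monodromy on the other generators, modulo `HA` -/
theorem ph_gen (k : Multiplicative ℤ) (i : Fin 3) :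
    ∃ c ∈ HA, ph k (lt (i, true)) = lt (i, true) * c := by
  have hm : ∀ i : Fin 3, ∃ c ∈ HA, mon (lt (i, true)) = lt (i, true) * c := by
    intro i
    fin_cases i
    · exact ⟨1, one_mem _, by rw [mul_one]; exact mon_a⟩
    · exact ⟨ga, Subgroup.mem_zpowers _, mon_b⟩
    · exact ⟨ga⁻¹, inv_mem (Subgroup.mem_zpowers _), mon_c⟩
  have hHA : ∀ (k : ℤ) {x : F3}, x ∈ HA → (mon ^ k) x = x := by
    intro k x hx
    have := ph_HA (Multiplicative.ofAdd k) hx
    rwa [ph_ofAdd] at this
  have h1 : ∀ k : ℤ, ∃ c ∈ HA, (mon ^ k) (lt (i, true)) = lt (i, true) * c := by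
    intro k
    obtain ⟨d, hd, hd2⟩ := hm i
    induction k using Int.induction_on with
    | zero => exact ⟨1, one_mem _, by rw [mul_one]; rfl⟩
    | succ n ih =>
      obtain ⟨c, hc, hc2⟩ := ih
      refine ⟨c * d, mul_mem hc hd, ?_⟩
      rw [zpow_add_one, MulAut.mul_apply, hd2, map_mul, hc2, hHA _ hd, mul_assoc]
    | pred n ih =>
      obtain ⟨c, hc, hc2⟩ := ih
      refine ⟨c * d⁻¹, mul_mem hc (inv_mem hd), ?_⟩
      have h3 : mon⁻¹ (lt (i, true)) = lt (i, true) * d⁻¹ := by
        rw [MulAut.inv_def, MulEquiv.symm_apply_eq, map_mul, map_inv, hd2]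
        have : mon d = d := by
          have := hHA 1 hd
          rwa [zpow_one] at this
        rw [this, mul_assoc, mul_inv_cancel, mul_one]
      rw [zpow_sub_one, MulAut.mul_apply, h3, map_mul, hc2, hHA _ (inv_mem hd), mul_assoc]
  have := ph_ofAdd (Multiplicative.toAdd k)
  rw [ofAdd_toAdd] at this
  rw [this]
  exact h1 _

/-- Gersten's group -/
abbrev GG : Type := F3 ⋊[ph] Multiplicative ℤ

/-- the action on the cosets -/
noncomputable instance actV : MulAction GG QV where
  smul g X := Quotient.map' (fun w => g.left * ph g.right w) (by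
    intro w w' h
    rw [QuotientGroup.leftRel_apply] at h ⊢
    have e : (g.left * ph g.right w)⁻¹ * (g.left * ph g.right w') = ph g.right (w⁻¹ * w') := by
      rw [map_mul, map_inv]
      group
    rw [e, ph_HA _ h]
    exact h) X
  one_smul X := by
    induction X using QuotientGroup.induction_on with
    | H w =>
      show (((1 : GG).left * ph (1 : GG).right w : F3) : QV) = _
      simp
  mul_smul g h X := by
    induction X using QuotientGroup.induction_on with
    | H w =>
      show (((g * h).left * ph (g * h).right w : F3) : QV) =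
        ((g.left * ph g.right (h.left * ph h.right w) : F3) : QV)
      rw [SemidirectProduct.mul_left, SemidirectProduct.mul_right, map_mul, map_mul,
        MulAut.mul_apply, mul_assoc]

theorem smul_mk (g : GG) (w : F3) : g • ((w : F3) : QV) = ((g.left * ph g.right w : F3) : QV) := rfl

/-- exponent sum of the second and third generators -/
noncomputable def χ : F3 →* Multiplicative ℤ :=
  FreeGroup.lift ![1, Multiplicative.ofAdd 1, Multiplicative.ofAdd 1]

theorem χ_HA {c : F3} (hc : c ∈ HA) : χ c = 1 := by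
  obtain ⟨k, rfl⟩ := Subgroup.mem_zpowers_iff.1 hc
  rw [map_zpow, lt_of]
  simp [χ]

theorem χ_gen {i : Fin 3} (hi : i ≠ 0) : χ (lt (i, true)) = Multiplicative.ofAdd 1 := by
  rw [lt_of]
  fin_cases i
  · exact absurd rfl hi
  · simp [χ]
  · simp [χ]

theorem χ_ph (k : Multiplicative ℤ) (x : F3) : χ (ph k x) = χ x := by
  have h : χ.comp (ph k).toMonoidHom = χ := by
    refine FreeGroup.ext_hom _ _ fun i => ?_
    obtain ⟨c, hc, h1⟩ := ph_gen k i
    show χ (ph k (lt (i, true))) = χ (lt (i, true))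
    rw [h1, map_mul, χ_HA hc, mul_one]
  exact DFunLike.congr_fun h x

/-- exponent sum of the first generator -/
noncomputable def χ' : F3 →* Multiplicative ℤ := FreeGroup.lift ![Multiplicative.ofAdd 1, 1, 1]

/-- affine representation -/
noncomputable def aff : F3 →* Equiv.Perm ℚ :=
  FreeGroup.lift ![Equiv.addRight (1:ℚ), Equiv.mulLeft₀ 2 (by norm_num),
    Equiv.mulLeft₀ 2 (by norm_num)]

theorem aff_a (k : ℤ) (t : ℚ) : aff (ga ^ k) t = t + k := by
  have h1 : ∀ t, aff ga t = t + 1 := fun t => by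
    show aff (FreeGroup.of 0) t = t + 1
    simp [aff]
  have hinv : ∀ t, (aff ga)⁻¹ t = t - 1 := by
    intro t
    rw [Equiv.Perm.inv_eq_iff_eq, h1]
    ring
  rw [map_zpow]
  induction k using Int.induction_on generalizing t with
  | zero => simp
  | succ n ih =>
    rw [zpow_add_one, Equiv.Perm.mul_apply, h1, ih]
    push_cast
    ring
  | pred n ih =>
    rw [zpow_sub_one, Equiv.Perm.mul_apply, hinv, ih]
    push_cast
    ring

theorem aff_gen {i : Fin 3} (hi : i ≠ 0) (t : ℚ) : aff (lt (i, true)) t = 2 * t := by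
  rw [lt_of]
  fin_cases i
  · exact absurd rfl hi
  · simp [aff]
  · simp [aff]

/-- the first cyclic group meets its conjugates trivially -/
theorem conj_trivial {i : Fin 3} (hi : i ≠ 0) {c : F3} (h1 : c ∈ HA)
    (h2 : (lt (i, true))⁻¹ * c * lt (i, true) ∈ HA) : c = 1 := by
  obtain ⟨k, hk⟩ := Subgroup.mem_zpowers_iff.1 h1
  obtain ⟨l, hl⟩ := Subgroup.mem_zpowers_iff.1 h2
  have e : c * lt (i, true) = lt (i, true) * ga ^ l := by rw [hl]; group
  have e1 := congrArg (fun g => aff g 0) e
  simp only [map_mul, Equiv.Perm.mul_apply] at e1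
  rw [← hk, aff_gen hi, aff_a, aff_a, aff_gen hi] at e1
  have e2 := congrArg χ' e
  rw [map_mul, map_mul, ← hk, map_zpow, map_zpow, mul_comm] at e2
  have e3 := mul_left_cancel e2
  have e4 : χ' ga = Multiplicative.ofAdd 1 := by
    show χ' (FreeGroup.of 0) = Multiplicative.ofAdd 1
    simp [χ']
  have e3' : χ' ga ^ k = χ' ga ^ l := e3
  rw [e4, ← ofAdd_zsmul, ← ofAdd_zsmul] at e3'
  have e5 : k = l := by simpa using e3'
  have e6 : (k : ℚ) = 2 * l := by linarith
  rw [e5] at e6
  have e7 : (l : ℚ) = 0 := by linarith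
  have e8 : l = 0 := by exact_mod_cast e7
  rw [← hk, e5, e8, zpow_zero]

theorem ga_zpow_injective : Injective (fun k : ℤ => ga ^ k) := by
  intro k l h
  have h1 := congrArg (fun g => aff g 0) h
  simp only [aff_a, zero_add] at h1
  exact_mod_cast h1

/-! ### Properties of the action -/

theorem rel_smul (g : GG) {X Y : QV} (h : rel X Y) : rel (g • X) (g • Y) := by
  obtain ⟨w, i, hi, rfl, rfl⟩ := h
  obtain ⟨c, hc, h1⟩ := ph_gen g.right i
  refine ⟨g.left * ph g.right w, i, hi, rfl, ?_⟩
  rw [smul_mk, map_mul, h1, ← mul_assoc, ← mul_assoc]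
  exact mk_coset hc

theorem adj_smul (g : GG) (X Y : QV) (h : TQ.Adj X Y) : TQ.Adj (g • X) (g • Y) := by
  rw [adj_iff] at h ⊢
  rcases h with h | h
  · exact Or.inl (rel_smul g h)
  · exact Or.inr (rel_smul g h)

theorem no_inversion (g : GG) (X Y : QV) (h : TQ.Adj X Y) : ¬ (g • X = Y ∧ g • Y = X) := by
  have key : ∀ X Y : QV, rel X Y → g • X = Y → g • Y = X → False := by
    rintro X Y ⟨w, i, hi, rfl, rfl⟩ h1 h2
    rw [smul_mk] at h1 h2
    have h3 := χ_HA (QuotientGroup.eq.1 h1)
    have h4 := χ_HA (QuotientGroup.eq.1 h2)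
    simp only [map_mul, map_inv, χ_gen hi, χ_ph] at h3 h4
    generalize χ g.left = s at h3 h4
    generalize χ w = r at h3 h4
    have h5 := congrArg Multiplicative.toAdd h3
    have h6 := congrArg Multiplicative.toAdd h4
    simp only [toAdd_mul, toAdd_inv, toAdd_ofAdd, toAdd_one] at h5 h6
    omega
  rintro ⟨h1, h2⟩
  rcases adj_iff.1 h with h | h
  · exact key X Y h h1 h2
  · exact key Y X h h2 h1

theorem inl_smul (v w : F3) : (SemidirectProduct.inl v : GG) • ((w : F3) : QV) =
    ((v * w : F3) : QV) := by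
  rw [smul_mk]
  simp

theorem vertex_orbit (X : QV) : ∃ g : GG, g • X = ((1 : F3) : QV) := by
  induction X using QuotientGroup.induction_on with
  | H w => exact ⟨SemidirectProduct.inl w⁻¹, by rw [inl_smul, inv_mul_cancel]⟩

theorem vertex_orbits : ∃ S : Finset QV, ∀ v : QV, ∃ g : GG, g • v ∈ S := by
  refine ⟨{((1 : F3) : QV)}, fun v => ?_⟩
  obtain ⟨g, hg⟩ := vertex_orbit v
  exact ⟨g, by rw [hg]; exact Finset.mem_singleton_self _⟩

theorem edge_orbits : ∃ E : Finset (QV × QV), ∀ u v : QV, TQ.Adj u v →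
    ∃ g : GG, (g • u, g • v) ∈ E := by
  classical
  let e : Fin 3 → QV × QV := fun i => (((1 : F3) : QV), ((lt (i, true) : F3) : QV))
  let e' : Fin 3 → QV × QV := fun i => (((lt (i, true) : F3) : QV), ((1 : F3) : QV))
  refine ⟨Finset.univ.image e ∪ Finset.univ.image e', fun u v h => ?_⟩
  have key : ∀ (w : F3) (i : Fin 3),
      (SemidirectProduct.inl w⁻¹ : GG) • ((w : F3) : QV) = ((1 : F3) : QV) ∧
      (SemidirectProduct.inl w⁻¹ : GG) • ((w * lt (i, true) : F3) : QV) =
        ((lt (i, true) : F3) : QV) := by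
    intro w i
    rw [inl_smul, inl_smul, inv_mul_cancel, inv_mul_cancel_left]
    exact ⟨rfl, rfl⟩
  rcases adj_iff.1 h with ⟨w, i, hi, rfl, rfl⟩ | ⟨w, i, hi, rfl, rfl⟩
  · refine ⟨SemidirectProduct.inl w⁻¹, ?_⟩
    rw [(key w i).1, (key w i).2]
    exact Finset.mem_union_left _ (Finset.mem_image_of_mem e (Finset.mem_univ i))
  · refine ⟨SemidirectProduct.inl w⁻¹, ?_⟩
    rw [(key w i).1, (key w i).2]
    exact Finset.mem_union_right _ (Finset.mem_image_of_mem e' (Finset.mem_univ i))

theorem mem_stab_one (g : GG) : g • ((1 : F3) : QV) = ((1 : F3) : QV) ↔ g.left ∈ HA := by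
  rw [smul_mk, map_one, mul_one, eq_comm, QuotientGroup.eq, inv_one, one_mul]

/-- the vertex group -/
noncomputable def vhom : Multiplicative (Fin 2 → ℤ) →* MulAction.stabilizer GG ((1 : F3) : QV) where
  toFun v := ⟨⟨ga ^ (Multiplicative.toAdd v 0), Multiplicative.ofAdd (Multiplicative.toAdd v 1)⟩, by
    rw [MulAction.mem_stabilizer_iff, mem_stab_one]
    exact Subgroup.zpow_mem_zpowers _ _⟩
  map_one' := by
    apply Subtype.ext
    refine SemidirectProduct.ext ?_ ?_
    · show ga ^ (0 : ℤ) = 1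
      rw [zpow_zero]
    · rfl
  map_mul' v w := by
    apply Subtype.ext
    refine SemidirectProduct.ext ?_ ?_
    · show ga ^ (Multiplicative.toAdd v 0 + Multiplicative.toAdd w 0) =
        ga ^ (Multiplicative.toAdd v 0) * ph (Multiplicative.ofAdd (Multiplicative.toAdd v 1))
          (ga ^ (Multiplicative.toAdd w 0))
      rw [ph_HA _ (Subgroup.zpow_mem_zpowers _ _), zpow_add]
    · rfl

theorem vhom_bijective : Bijective vhom := by
  constructor
  · intro v w h
    have h1 : (vhom v : GG) = vhom w := congrArg Subtype.val h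
    have h2 : ga ^ (Multiplicative.toAdd v 0) = ga ^ (Multiplicative.toAdd w 0) :=
      congrArg SemidirectProduct.left h1
    have h3 : Multiplicative.ofAdd (Multiplicative.toAdd v 1) =
      Multiplicative.ofAdd (Multiplicative.toAdd w 1) := congrArg SemidirectProduct.right h1
    apply Multiplicative.toAdd.injective
    funext i
    fin_cases i
    · exact ga_zpow_injective h2
    · exact Multiplicative.ofAdd.injective h3
  · rintro ⟨g, hg⟩
    rw [MulAction.mem_stabilizer_iff, mem_stab_one] at hg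
    obtain ⟨k, hk⟩ := Subgroup.mem_zpowers_iff.1 hg
    refine ⟨Multiplicative.ofAdd ![k, Multiplicative.toAdd g.right], ?_⟩
    apply Subtype.ext
    refine SemidirectProduct.ext ?_ ?_
    · exact hk
    · rfl

theorem vertex_stab (X : QV) :
    ∃ n : ℕ, Nonempty (↥(MulAction.stabilizer GG X) ≃* Multiplicative (Fin n → ℤ)) := by
  obtain ⟨g, hg⟩ := vertex_orbit X
  refine ⟨2, ⟨?_⟩⟩
  have h1 : MulAction.orbitRel GG QV ((1 : F3) : QV) X := by
    rw [MulAction.orbitRel_apply]
    exact ⟨g, hg⟩
  exact (MulAction.stabilizerEquivStabilizerOfOrbitRel h1).symm.trans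
    (MulEquiv.ofBijective vhom vhom_bijective).symm

theorem edge_stab (u v : QV) (h : TQ.Adj u v) :
    IsCyclic ↥(MulAction.stabilizer GG u ⊓ MulAction.stabilizer GG v) := by
  let π : ↥(MulAction.stabilizer GG u ⊓ MulAction.stabilizer GG v) →* Multiplicative ℤ :=
    (SemidirectProduct.rightHom (φ := ph)).comp (Subgroup.subtype _)
  have key : ∀ (X Y : QV), rel X Y → ∀ g : GG, g • X = X → g • Y = Y → g.right = 1 → g = 1 := by
    rintro X Y ⟨w, i, hi, rfl, rfl⟩ g h1 h2 h3
    rw [smul_mk, h3, map_one, MulAut.one_apply] at h1 h2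
    have h4 := QuotientGroup.eq.1 h1
    have h5 := QuotientGroup.eq.1 h2
    have h6 : w⁻¹ * g.left⁻¹ * w = 1 := by
      apply conj_trivial hi
      · have e : w⁻¹ * g.left⁻¹ * w = (g.left * w)⁻¹ * w := by group
        rw [e]; exact h4
      · have e : (lt (i, true))⁻¹ * (w⁻¹ * g.left⁻¹ * w) * lt (i, true) =
          (g.left * (w * lt (i, true)))⁻¹ * (w * lt (i, true)) := by group
        rw [e]; exact h5
    have h7 : g.left = 1 := by
      have e : g.left⁻¹ = w * (w⁻¹ * g.left⁻¹ * w) * w⁻¹ := by group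
      rw [h6] at e
      rw [← inv_inj, e]
      group
    exact SemidirectProduct.ext h7 h3
  have hinj : Injective π := by
    rw [injective_iff_map_eq_one]
    rintro ⟨g, hg⟩ hg1
    obtain ⟨h1, h2⟩ := Subgroup.mem_inf.1 hg
    apply Subtype.ext
    rcases adj_iff.1 h with h' | h'
    · exact key u v h' g h1 h2 hg1
    · exact key v u h' g h2 h1 hg1
  exact isCyclic_of_injective π hinj

end Q170.GG
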