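import Mathlib

/-!
# Cyclic subgroups of free groups are closed in the profinite topology
-/

set_option autoImplicit false

open Set Function

namespace Q170.GG

/-- Extension of a partial injection of a finite set to a permutation. -/
theorem exists_perm_extend {S : Type} [Fintype S] [DecidableEq S] {Q : Type} (ι : S → Q)
    (hι : Injective ι) (σ : Equiv.Perm Q) :
    ∃ τ : Equiv.Perm S, ∀ s s' : S, ι s' = σ (ι s) → τ s = s' := by
  classical
  let p : S → Prop := fun s => ∃ s', ι s' = σ (ι s)
  let q : S → Prop := fun s' => ∃ s, ι s' = σ (ι s)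
  let e : {s // p s} ≃ {s // q s} :=
    { toFun := fun s => ⟨s.2.choose, s.1, s.2.choose_spec⟩
      invFun := fun s => ⟨s.2.choose, s.1, s.2.choose_spec⟩
      left_inv := by
        rintro ⟨s, hs⟩
        apply Subtype.ext
        have h1 : ∃ s₂, ι hs.choose = σ (ι s₂) := ⟨s, hs.choose_spec⟩
        show h1.choose = s
        have h2 := h1.choose_spec
        exact (hι (σ.injective (hs.choose_spec.symm.trans h2))).symm
      right_inv := by
        rintro ⟨s, hs⟩
        apply Subtype.ext
        have h1 : ∃ s₂, ι s₂ = σ (ι hs.choose) := ⟨s, hs.choose_spec⟩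
        show h1.choose = s
        have h2 := h1.choose_spec
        exact hι (h2.trans hs.choose_spec.symm) }
  refine ⟨e.extendSubtype, fun s s' h => ?_⟩
  have hp : p s := ⟨s', h⟩
  rw [Equiv.extendSubtype_apply_of_mem e s hp]
  show hp.choose = s'
  apply hι
  rw [hp.choose_spec, h]

/-- Marshall Hall: cyclic subgroups of a free group are intersections of subgroups of finite
index. -/
theorem free_separable {α : Type} (g h : FreeGroup α)
    (hgh : h ∉ Subgroup.zpowers g) :
    ∃ (S : Type) (_ : Finite S) (f : FreeGroup α →* Equiv.Perm S) (s : S),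
      f g s = s ∧ f h s ≠ s := by
  classical
  let Q := FreeGroup α ⧸ Subgroup.zpowers g
  let o : Q := ((1 : FreeGroup α) : Q)
  let tr : List (α × Bool) → Finset Q := fun L =>
    (L.tails.map fun M => (((FreeGroup.mk M : FreeGroup α)) : Q)).toFinset
  let S₀ : Finset Q := tr g.toWord ∪ tr h.toWord
  have hmem : ∀ (L M : List (α × Bool)), M <:+ L → (((FreeGroup.mk M : FreeGroup α)) : Q) ∈ tr L := by
    intro L M hM
    rw [List.mem_toFinset, List.mem_map]
    exact ⟨M, (List.mem_tails _ _).2 hM, rfl⟩
  have hex : ∀ i : α, ∃ τ : Equiv.Perm S₀, ∀ s s' : S₀,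
      (s' : Q) = FreeGroup.of i • (s : Q) → τ s = s' := fun i =>
    exists_perm_extend (fun s : S₀ => (s : Q)) Subtype.val_injective
      (MulAction.toPerm (FreeGroup.of i))
  choose τ hτ using hex
  let f : FreeGroup α →* Equiv.Perm S₀ := FreeGroup.lift τ
  have ho : o ∈ S₀ := by
    refine Finset.mem_union_left _ ?_
    have := hmem g.toWord [] (List.nil_suffix)
    exact this
  -- letters act as they should
  have hlet : ∀ (x : α × Bool) (s s' : S₀), (s' : Q) = (FreeGroup.mk [x] : FreeGroup α) • (s : Q) →
      f (FreeGroup.mk [x]) s = s' := by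
    rintro ⟨i, b⟩ s s' hs
    cases b
    · have e : (FreeGroup.mk [(i, false)] : FreeGroup α) = (FreeGroup.of i)⁻¹ := rfl
      rw [e] at hs ⊢
      rw [map_inv, Equiv.Perm.inv_eq_iff_eq]
      show s = f (FreeGroup.of i) s'
      have h1 : f (FreeGroup.of i) = τ i := FreeGroup.lift_apply_of
      rw [h1]
      symm
      apply hτ
      rw [hs, smul_inv_smul]
    · have e : (FreeGroup.mk [(i, true)] : FreeGroup α) = FreeGroup.of i := rfl
      rw [e] at hs ⊢
      have h1 : f (FreeGroup.of i) = τ i := FreeGroup.lift_apply_of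
      rw [h1]
      exact hτ i s s' hs
  have hword : ∀ (L M : List (α × Bool)), tr L ⊆ S₀ → M <:+ L →
      ((f (FreeGroup.mk M) ⟨o, ho⟩ : S₀) : Q) = (((FreeGroup.mk M : FreeGroup α)) : Q) := by
    intro L M hL
    induction M with
    | nil =>
      intro _
      have : (FreeGroup.mk ([] : List (α × Bool)) : FreeGroup α) = 1 := rfl
      rw [this, map_one]
      rfl
    | cons x M ih =>
      intro hM
      have hM' : M <:+ L := (List.suffix_cons x M).trans hM
      have h2 := ih hM'
      have h3 : (((FreeGroup.mk (x :: M) : FreeGroup α)) : Q) ∈ S₀ := hL (hmem L _ hM)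
      have e : (FreeGroup.mk (x :: M) : FreeGroup α) = FreeGroup.mk [x] * FreeGroup.mk M := rfl
      have e2 : f (FreeGroup.mk (x :: M)) ⟨o, ho⟩ =
          f (FreeGroup.mk [x]) (f (FreeGroup.mk M) ⟨o, ho⟩) := by
        rw [e, map_mul, Equiv.Perm.mul_apply]
      rw [e2]
      have h4 := hlet x (f (FreeGroup.mk M) ⟨o, ho⟩) ⟨_, h3⟩ (by
        rw [h2]
        rfl)
      rw [h4]
  have hg : ((g : FreeGroup α) : Q) = o := by
    rw [QuotientGroup.eq]
    simp
  have hh : ((h : FreeGroup α) : Q) ≠ o := by
    intro h'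
    have h1 := QuotientGroup.eq.1 h'
    rw [mul_one, inv_mem_iff] at h1
    exact hgh h1
  refine ⟨S₀, inferInstance, f, ⟨o, ho⟩, ?_, ?_⟩
  · have h1 := hword g.toWord g.toWord Finset.subset_union_left List.suffix_rfl
    rw [FreeGroup.mk_toWord] at h1
    exact Subtype.ext (h1.trans hg)
  · have h1 := hword h.toWord h.toWord Finset.subset_union_right List.suffix_rfl
    rw [FreeGroup.mk_toWord] at h1
    intro h2
    exact hh (h1.symm.trans (congrArg Subtype.val h2))

end Q170.GG
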