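import Pool.Agent.Q170.GG.Grp

/-!
# The first generator of Gersten's group does not generate a virtual retract
-/

set_option autoImplicit false

open Set Function

namespace Q170.GG

section

variable {G : Type} [Group G] (K : Subgroup G) (ρ : K →* Multiplicative ℤ)

theorem conj_mem_core (g : G) {x : G} (hx : x ∈ K.normalCore) : g⁻¹ * x * g ∈ K := by
  have h1 : g⁻¹ * x * g ∈ K.normalCore := by
    have := (inferInstance : K.normalCore.Normal).conj_mem x hx g⁻¹
    rwa [inv_inv] at this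
  exact K.normalCore_le h1

/-- the homomorphism precomposed with a conjugation -/
def cf (g : G) (x : K.normalCore) : ℤ :=
  Multiplicative.toAdd (ρ ⟨g⁻¹ * x * g, conj_mem_core K g x.2⟩)

theorem cf_mul (g : G) (x y : K.normalCore) : cf K ρ g (x * y) = cf K ρ g x + cf K ρ g y := by
  unfold cf
  rw [← toAdd_mul, ← map_mul]
  congr 2
  apply Subtype.ext
  show g⁻¹ * (x * y : G) * g = (g⁻¹ * x * g) * (g⁻¹ * y * g)
  group

theorem cf_inv (g : G) (x : K.normalCore) : cf K ρ g x⁻¹ = -cf K ρ g x := by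
  have h := cf_mul K ρ g x x⁻¹
  rw [mul_inv_cancel] at h
  have h1 := cf_mul K ρ g 1 1
  rw [mul_one] at h1
  linarith

theorem cf_right (g : G) {n : G} (hn : n ∈ K.normalCore) (x : K.normalCore) :
    cf K ρ (g * n) x = cf K ρ g x := by
  unfold cf
  have hnK : n ∈ K := K.normalCore_le hn
  have e : (⟨(g * n)⁻¹ * x * (g * n), conj_mem_core K (g * n) x.2⟩ : K) =
      ⟨n, hnK⟩⁻¹ * ⟨g⁻¹ * x * g, conj_mem_core K g x.2⟩ * ⟨n, hnK⟩ := by
    apply Subtype.ext
    show (g * n)⁻¹ * (x : G) * (g * n) = n⁻¹ * (g⁻¹ * x * g) * n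
    group
  rw [e, map_mul ρ, map_mul ρ, map_inv, mul_comm (ρ ⟨n, hnK⟩)⁻¹, mul_assoc, inv_mul_cancel, mul_one]

theorem cf_coset {g h : G} (hgh : (g : G ⧸ K.normalCore) = h) (x : K.normalCore) :
    cf K ρ g x = cf K ρ h x := by
  have h1 := QuotientGroup.eq.1 hgh
  have h2 : h = g * (g⁻¹ * h) := by group
  rw [h2, cf_right K ρ g h1]

/-- a conjugation invariant quadratic form -/
noncomputable def qf [Fintype (G ⧸ K.normalCore)] (x : K.normalCore) : ℤ :=
  ∑ c : G ⧸ K.normalCore, cf K ρ c.out x ^ 2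

theorem qf_conj [Fintype (G ⧸ K.normalCore)] (x y : K.normalCore) (g : G)
    (h : (y : G) = g⁻¹ * x * g) : qf K ρ y = qf K ρ x := by
  unfold qf
  have h1 : ∀ c : G ⧸ K.normalCore, cf K ρ c.out y = cf K ρ (g • c).out x := by
    intro c
    have h2 : cf K ρ c.out y = cf K ρ (g * c.out) x := by
      unfold cf
      congr 2
      apply Subtype.ext
      show (c.out)⁻¹ * (y : G) * c.out = (g * c.out)⁻¹ * x * (g * c.out)
      rw [h]
      group
    rw [h2]
    apply cf_coset
    rw [QuotientGroup.out_eq']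
    conv_rhs => rw [← QuotientGroup.out_eq' c]
    rfl
  simp only [h1]
  exact Equiv.sum_comp (MulAction.toPerm g : Equiv.Perm (G ⧸ K.normalCore))
    (fun c => cf K ρ c.out x ^ 2)

theorem no_retract (hK : K.FiniteIndex) {a t b c : G} (hat : Commute t a)
    (hb : b⁻¹ * t * b = t * a) (hc : c⁻¹ * t * c = t * a⁻¹) (haK : a ∈ K) :
    ρ ⟨a, haK⟩ = 1 := by
  have hN : K.normalCore.FiniteIndex := inferInstance
  have hfin : Finite (G ⧸ K.normalCore) := inferInstance
  let hF : Fintype (G ⧸ K.normalCore) := Fintype.ofFinite _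
  obtain ⟨m₁, hm₁, -, h₁⟩ := Subgroup.exists_pow_mem_of_index_ne_zero hN.index_ne_zero a
  obtain ⟨m₂, hm₂, -, h₂⟩ := Subgroup.exists_pow_mem_of_index_ne_zero hN.index_ne_zero t
  set m := m₁ * m₂ with hm
  have hm0 : 0 < m := Nat.mul_pos hm₁ hm₂
  have ha : a ^ m ∈ K.normalCore := by
    rw [hm, pow_mul]
    exact pow_mem h₁ _
  have ht : t ^ m ∈ K.normalCore := by
    rw [hm, mul_comm, pow_mul]
    exact pow_mem h₂ _
  let A : K.normalCore := ⟨a ^ m, ha⟩
  let T : K.normalCore := ⟨t ^ m, ht⟩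
  have e1 : qf K ρ (T * A) = qf K ρ T := by
    refine qf_conj K ρ T (T * A) b ?_
    show t ^ m * a ^ m = b⁻¹ * t ^ m * b
    rw [← hat.mul_pow, ← hb]
    have := conj_pow (i := m) (a := b⁻¹) (b := t)
    rw [inv_inv] at this
    exact this
  have e2 : qf K ρ (T * A⁻¹) = qf K ρ T := by
    refine qf_conj K ρ T (T * A⁻¹) c ?_
    show t ^ m * (a ^ m)⁻¹ = c⁻¹ * t ^ m * c
    rw [← inv_pow, ← hat.inv_right.mul_pow, ← hc]
    have := conj_pow (i := m) (a := c⁻¹) (b := t)
    rw [inv_inv] at this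
    exact this
  have e3 : qf K ρ (T * A) + qf K ρ (T * A⁻¹) = 2 * qf K ρ T + 2 * qf K ρ A := by
    unfold qf
    rw [← Finset.sum_add_distrib, Finset.mul_sum, Finset.mul_sum, ← Finset.sum_add_distrib]
    refine Finset.sum_congr rfl fun c _ => ?_
    rw [cf_mul, cf_mul, cf_inv]
    ring
  have e4 : qf K ρ A = 0 := by
    rw [e1, e2] at e3
    linarith
  have e5 : cf K ρ ((1 : G) : G ⧸ K.normalCore).out A = 0 := by
    have h3 := (Finset.sum_eq_zero_iff_of_nonneg (fun c _ => sq_nonneg _)).1 e4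
      ((1 : G) : G ⧸ K.normalCore) (Finset.mem_univ _)
    exact pow_eq_zero_iff (two_ne_zero) |>.1 h3
  have e6 : cf K ρ 1 A = 0 := by
    rw [← e5]
    apply cf_coset
    rw [QuotientGroup.out_eq']
  have e7 : cf K ρ 1 A = m * Multiplicative.toAdd (ρ ⟨a, haK⟩) := by
    unfold cf
    have e : (⟨(1 : G)⁻¹ * (A : G) * 1, conj_mem_core K 1 A.2⟩ : K) = ⟨a, haK⟩ ^ m := by
      apply Subtype.ext
      show (1 : G)⁻¹ * a ^ m * 1 = a ^ m
      group
    rw [e, map_pow, toAdd_pow]
    simp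
  rw [e7] at e6
  have h4 : Multiplicative.toAdd (ρ ⟨a, haK⟩) = 0 := by
    rcases mul_eq_zero.1 e6 with h | h
    · exfalso
      have : m = 0 := by exact_mod_cast h
      omega
    · exact h
  exact Multiplicative.toAdd.injective h4

end

/-- the stable element -/
noncomputable def gt : GG := SemidirectProduct.inr (Multiplicative.ofAdd 1)

theorem gt_conj (x : F3) : (SemidirectProduct.inl x : GG)⁻¹ * gt * SemidirectProduct.inl x =
    SemidirectProduct.inl (x⁻¹ * mon x) * gt := by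
  unfold gt
  refine SemidirectProduct.ext ?_ ?_
  · simp [ph_one]
  · simp

theorem main : ¬ (∀ (G : Type) [Group G] (V : Type) (T : SimpleGraph V) [MulAction G V],
    T.IsTree →
    (∀ (g : G) (u v : V), T.Adj u v → T.Adj (g • u) (g • v)) →
    (∀ (g : G) (u v : V), T.Adj u v → ¬ (g • u = v ∧ g • v = u)) →
    (∃ S : Finset V, ∀ v : V, ∃ g : G, g • v ∈ S) →
    (∃ E : Finset (V × V), ∀ u v : V, T.Adj u v → ∃ g : G, (g • u, g • v) ∈ E) →
    (∀ v : V, ∃ n : ℕ, Nonempty (↥(MulAction.stabilizer G v) ≃* Multiplicative (Fin n → ℤ))) →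
    (∀ u v : V, T.Adj u v →
      IsCyclic ↥(MulAction.stabilizer G u ⊓ MulAction.stabilizer G v)) →
    (∀ g h : G, h ∉ Subgroup.zpowers g →
      ∃ K : Subgroup G, K.FiniteIndex ∧ Subgroup.zpowers g ≤ K ∧ h ∉ K) →
    ∀ g : G, ∃ K : Subgroup G, K.FiniteIndex ∧ Subgroup.zpowers g ≤ K ∧
      ∃ r : ↥K →* G, (∀ k : ↥K, r k ∈ Subgroup.zpowers g) ∧
        (∀ k : ↥K, (k : G) ∈ Subgroup.zpowers g → r k = (k : G))) := by
  intro H
  obtain ⟨K, hK, hgK, r, hr1, hr2⟩ := H GG QV TQ TQ_tree adj_smul no_inversion vertex_orbits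
    edge_orbits vertex_stab edge_stab (separable ph) (SemidirectProduct.inl ga)
  have haK : (SemidirectProduct.inl ga : GG) ∈ K := hgK (Subgroup.mem_zpowers _)
  have hright : ∀ k : K, (r k).right = 1 := by
    intro k
    obtain ⟨i, hi⟩ := Subgroup.mem_zpowers_iff.1 (hr1 k)
    rw [← hi, ← map_zpow, SemidirectProduct.right_inl]
  let ρ : K →* Multiplicative ℤ :=
    { toFun := fun k => χ' (r k).left
      map_one' := by rw [map_one, SemidirectProduct.one_left, map_one]
      map_mul' := fun k l => by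
        rw [map_mul, SemidirectProduct.mul_left, hright k, map_one, MulAut.one_apply, map_mul] }
  have h1 : ρ ⟨SemidirectProduct.inl ga, haK⟩ = Multiplicative.ofAdd 1 := by
    show χ' (r ⟨SemidirectProduct.inl ga, haK⟩).left = _
    rw [hr2 _ (Subgroup.mem_zpowers _)]
    show χ' (SemidirectProduct.inl ga : GG).left = _
    rw [SemidirectProduct.left_inl]
    show χ' (FreeGroup.of 0) = Multiplicative.ofAdd 1
    simp [χ']
  have hcomm : Commute gt (SemidirectProduct.inl ga : GG) := by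
    have h2 := gt_conj ga
    rw [mon_a, inv_mul_cancel, map_one, one_mul] at h2
    have h3 : gt * (SemidirectProduct.inl ga : GG) = (SemidirectProduct.inl ga : GG) *
        ((SemidirectProduct.inl ga : GG)⁻¹ * gt * SemidirectProduct.inl ga) := by group
    rw [h2] at h3
    exact h3
  have h2 : ρ ⟨SemidirectProduct.inl ga, haK⟩ = 1 := by
    refine no_retract K ρ hK (t := gt) (b := SemidirectProduct.inl gb)
      (c := SemidirectProduct.inl gc) hcomm ?_ ?_ haK
    · rw [gt_conj, mon_b, inv_mul_cancel_left]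
      exact hcomm.symm
    · rw [gt_conj, mon_c, inv_mul_cancel_left, map_inv]
      exact hcomm.inv_right.symm
  rw [h1] at h2
  have h3 := congrArg Multiplicative.toAdd h2
  rw [toAdd_ofAdd, toAdd_one] at h3
  exact one_ne_zero h3

end Q170.GG
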