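import Pool.Agent.Q170.GG.Hall

/-!
# Free-by-cyclic groups are cyclic subgroup separable
-/

set_option autoImplicit false

open Set Function
open scoped Pointwise

namespace Q170.GG

variable {α : Type} (φ : Multiplicative ℤ →* MulAut (FreeGroup α))

/-- The action of a free-by-cyclic group on pairs: a homomorphism of the free group to the
permutations of a set, and an element of this set. -/
@[reducible] def act (S : Type) :
    MulAction (FreeGroup α ⋊[φ] Multiplicative ℤ) ((FreeGroup α →* Equiv.Perm S) × S) where
  smul y p := (p.1.comp ((φ y.right)⁻¹ : MulAut (FreeGroup α)).toMonoidHom,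
    p.1 ((φ y.right)⁻¹ y.left) p.2)
  one_smul p := by
    refine Prod.ext ?_ ?_
    · refine MonoidHom.ext fun x => ?_
      show p.1 ((φ (1 : FreeGroup α ⋊[φ] Multiplicative ℤ).right)⁻¹ x) = _
      simp
    · show p.1 ((φ (1 : FreeGroup α ⋊[φ] Multiplicative ℤ).right)⁻¹
        (1 : FreeGroup α ⋊[φ] Multiplicative ℤ).left) p.2 = p.2
      simp
  mul_smul z y p := by
    refine Prod.ext ?_ ?_
    · refine MonoidHom.ext fun x => ?_
      show p.1 ((φ (z * y).right)⁻¹ x) = p.1 ((φ y.right)⁻¹ ((φ z.right)⁻¹ x))
      rw [SemidirectProduct.mul_right, map_mul, mul_inv_rev]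
      rfl
    · show p.1 ((φ (z * y).right)⁻¹ (z * y).left) p.2 =
        p.1 ((φ y.right)⁻¹ ((φ z.right)⁻¹ z.left)) (p.1 ((φ y.right)⁻¹ y.left) p.2)
      rw [SemidirectProduct.mul_right, SemidirectProduct.mul_left, map_mul φ, mul_inv_rev,
        MulAut.mul_apply, map_mul, map_mul, map_mul, Equiv.Perm.mul_apply, MulAut.inv_apply_self]

theorem finite_hom [Finite α] (S : Type) [Finite S] : Finite (FreeGroup α →* Equiv.Perm S) :=
  Finite.of_equiv (α → Equiv.Perm S) FreeGroup.lift

/-- the kernel of the projection to the integers modulo `m` -/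
def VV (m : ℕ) : Subgroup (FreeGroup α ⋊[φ] Multiplicative ℤ) :=
  ((AddMonoidHom.toMultiplicative (Int.castAddHom (ZMod m))).comp
    SemidirectProduct.rightHom).ker

theorem mem_VV {m : ℕ} {x : FreeGroup α ⋊[φ] Multiplicative ℤ} :
    x ∈ VV φ m ↔ (m : ℤ) ∣ Multiplicative.toAdd x.right := by
  unfold VV
  rw [MonoidHom.mem_ker]
  show Multiplicative.ofAdd ((Multiplicative.toAdd x.right : ℤ) : ZMod m) = 1 ↔ _
  rw [← ZMod.intCast_zmod_eq_zero_iff_dvd]
  exact Iff.rfl

theorem VV_finite {m : ℕ} (hm : m ≠ 0) : (VV φ m).FiniteIndex := by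
  have : NeZero m := ⟨hm⟩
  unfold VV
  exact Subgroup.finiteIndex_ker _

/-- Free-by-cyclic groups are cyclic subgroup separable. -/
theorem separable [Finite α] (g h : FreeGroup α ⋊[φ] Multiplicative ℤ)
    (hgh : h ∉ Subgroup.zpowers g) :
    ∃ K : Subgroup (FreeGroup α ⋊[φ] Multiplicative ℤ), K.FiniteIndex ∧
      Subgroup.zpowers g ≤ K ∧ h ∉ K := by
  set k₀ : ℤ := Multiplicative.toAdd g.right with hk₀
  set k₁ : ℤ := Multiplicative.toAdd h.right with hk₁
  by_cases hdvd : k₀ ∣ k₁
  swap
  · by_cases h0 : k₀ = 0
    · have h1 : k₁ ≠ 0 := by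
        intro h1
        rw [h0, h1] at hdvd
        exact hdvd (dvd_refl _)
      refine ⟨VV φ (2 * k₁.natAbs), VV_finite φ (by omega), ?_, ?_⟩
      · rw [Subgroup.zpowers_le, mem_VV, ← hk₀, h0]
        exact dvd_zero _
      · rw [mem_VV, ← hk₁]
        rintro ⟨q, hq⟩
        have h2 := congrArg Int.natAbs hq
        rw [Int.natAbs_mul] at h2
        have h3 : ((2 * k₁.natAbs : ℕ) : ℤ).natAbs = 2 * k₁.natAbs := Int.natAbs_natCast _
        rw [h3] at h2
        have h4 : 0 < k₁.natAbs := Int.natAbs_pos.2 h1
        have h5 : q.natAbs ≠ 0 := by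
          intro h5
          rw [h5] at h2
          omega
        have h6 : 1 ≤ q.natAbs := Nat.one_le_iff_ne_zero.2 h5
        nlinarith
    · refine ⟨VV φ k₀.natAbs, VV_finite φ (by omega), ?_, ?_⟩
      · rw [Subgroup.zpowers_le, mem_VV, ← hk₀]
        exact Int.natAbs_dvd.2 (dvd_refl _)
      · rw [mem_VV, ← hk₁]
        intro h1
        exact hdvd (Int.natAbs_dvd.1 h1)
  · obtain ⟨j, hj⟩ := hdvd
    have hright : ∀ i : ℤ, Multiplicative.toAdd (g ^ i).right = i * k₀ := by
      intro i
      have h1 : (g ^ i).right = g.right ^ i :=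
        map_zpow (SemidirectProduct.rightHom (φ := φ)) g i
      rw [h1, toAdd_zpow, smul_eq_mul]
    by_cases h0 : k₀ = 0
    · -- both in the free group
      have hk₁0 : k₁ = 0 := by rw [hj, h0, zero_mul]
      have hg : g = SemidirectProduct.inl g.left := by
        refine SemidirectProduct.ext (by simp) ?_
        rw [SemidirectProduct.right_inl]
        exact Multiplicative.toAdd.injective h0
      have hh : h = SemidirectProduct.inl h.left := by
        refine SemidirectProduct.ext (by simp) ?_
        rw [SemidirectProduct.right_inl]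
        exact Multiplicative.toAdd.injective hk₁0
      have h1 : h.left ∉ Subgroup.zpowers g.left := by
        intro h1
        obtain ⟨i, hi⟩ := Subgroup.mem_zpowers_iff.1 h1
        apply hgh
        rw [Subgroup.mem_zpowers_iff]
        refine ⟨i, ?_⟩
        rw [hg, ← map_zpow, hi, ← hh]
      obtain ⟨S, hS, f, s, hf1, hf2⟩ := free_separable g.left h.left h1
      have hfin := finite_hom (α := α) S
      let A := act φ S
      refine ⟨MulAction.stabilizer _ ((f, s) : (FreeGroup α →* Equiv.Perm S) × S), ?_, ?_, ?_⟩
      · have h2 : (MulAction.toPermHom (FreeGroup α ⋊[φ] Multiplicative ℤ)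
            ((FreeGroup α →* Equiv.Perm S) × S)).ker.FiniteIndex := Subgroup.finiteIndex_ker _
        refine Subgroup.finiteIndex_of_le (H := (MulAction.toPermHom
          (FreeGroup α ⋊[φ] Multiplicative ℤ) ((FreeGroup α →* Equiv.Perm S) × S)).ker) ?_
        intro y hy
        rw [MulAction.mem_stabilizer_iff]
        have h3 : MulAction.toPermHom (FreeGroup α ⋊[φ] Multiplicative ℤ)
            ((FreeGroup α →* Equiv.Perm S) × S) y (f, s) = (f, s) := by
          rw [MonoidHom.mem_ker.1 hy]
          rfl
        exact h3
      · rw [Subgroup.zpowers_le, MulAction.mem_stabilizer_iff, hg]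
        refine Prod.ext ?_ ?_
        · refine MonoidHom.ext fun x => ?_
          show f ((φ (SemidirectProduct.inl g.left : FreeGroup α ⋊[φ] Multiplicative ℤ).right)⁻¹ x)
            = _
          simp
        · show f ((φ (SemidirectProduct.inl g.left : FreeGroup α ⋊[φ] Multiplicative ℤ).right)⁻¹
            (SemidirectProduct.inl g.left : FreeGroup α ⋊[φ] Multiplicative ℤ).left) s = s
          simpa using hf1
      · rw [MulAction.mem_stabilizer_iff, hh]
        intro h2
        have h3 := congrArg Prod.snd h2
        apply hf2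
        have h4 : f ((φ (SemidirectProduct.inl h.left :
          FreeGroup α ⋊[φ] Multiplicative ℤ).right)⁻¹
            (SemidirectProduct.inl h.left : FreeGroup α ⋊[φ] Multiplicative ℤ).left) s = s := h3
        simpa using h4
    · -- `g` has infinite order modulo the free group
      set x := h * g ^ (-j) with hx
      have hxr : Multiplicative.toAdd x.right = 0 := by
        rw [hx, SemidirectProduct.mul_right, toAdd_mul, hright, ← hk₁, hj]
        ring
      have hx1 : x ≠ 1 := by
        intro h1
        apply hgh
        rw [Subgroup.mem_zpowers_iff]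
        refine ⟨j, ?_⟩
        have h2 : h = g ^ j := by
          have h3 : h = x * g ^ j := by
            rw [hx, mul_assoc, ← zpow_add, neg_add_cancel, zpow_zero, mul_one]
          rw [h3, h1, one_mul]
        exact h2.symm
      have hxl : x = SemidirectProduct.inl x.left := by
        refine SemidirectProduct.ext (by simp) ?_
        rw [SemidirectProduct.right_inl]
        exact Multiplicative.toAdd.injective hxr
      have hxl1 : x.left ∉ Subgroup.zpowers (1 : FreeGroup α) := by
        intro h1
        rw [Subgroup.zpowers_one_eq_bot, Subgroup.mem_bot] at h1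
        apply hx1
        rw [hxl, h1, map_one]
      obtain ⟨S, hS, f, s, -, hf2⟩ := free_separable 1 x.left hxl1
      have hfin := finite_hom (α := α) S
      let A := act φ S
      let P := MulAction.toPermHom (FreeGroup α ⋊[φ] Multiplicative ℤ)
        ((FreeGroup α →* Equiv.Perm S) × S)
      let W : Subgroup (FreeGroup α ⋊[φ] Multiplicative ℤ) := P.ker
      have hWf : W.FiniteIndex := Subgroup.finiteIndex_ker P
      let W₀ : Subgroup (FreeGroup α ⋊[φ] Multiplicative ℤ) :=
        W ⊓ (SemidirectProduct.rightHom (φ := φ)).ker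
      have hW₀n : W₀.Normal := inferInstance
      obtain ⟨E, hE0, -, hE⟩ := Subgroup.exists_pow_mem_of_index_ne_zero hWf.index_ne_zero g
      have hxW : x ∉ W := by
        intro h1
        have h2 : P x = 1 := h1
        have h3 : P x (f, s) = (f, s) := by rw [h2]; rfl
        have h4 := congrArg Prod.snd h3
        apply hf2
        have h5 : f ((φ x.right)⁻¹ x.left) s = s := h4
        have h6 : x.right = 1 := Multiplicative.toAdd.injective hxr
        rw [h6] at h5
        simpa using h5
      refine ⟨Subgroup.zpowers g ⊔ W₀, ?_, le_sup_left, ?_⟩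
      · have h1 : W ⊓ VV φ (E * k₀.natAbs) ≤ Subgroup.zpowers g ⊔ W₀ := by
          intro y hy
          obtain ⟨hy1, hy2⟩ := Subgroup.mem_inf.1 hy
          rw [mem_VV] at hy2
          obtain ⟨q, hq⟩ := hy2
          obtain ⟨q', hq'⟩ : ∃ q' : ℤ, Multiplicative.toAdd y.right = (E : ℤ) * q' * k₀ := by
            rcases Int.natAbs_eq k₀ with h2 | h2
            · refine ⟨q, ?_⟩
              rw [hq]
              push_cast
              rw [← Int.natCast_natAbs, ← h2]
              ring
            · refine ⟨-q, ?_⟩
              have h3 : (k₀.natAbs : ℤ) = -k₀ := by omega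
              rw [hq]
              push_cast
              rw [← Int.natCast_natAbs, h3]
              ring
          have h3 : y * g ^ (-((E : ℤ) * q')) ∈ W₀ := by
            refine Subgroup.mem_inf.2 ⟨?_, ?_⟩
            · refine W.mul_mem hy1 ?_
              rw [zpow_neg, zpow_mul, zpow_natCast]
              exact W.inv_mem (W.zpow_mem hE _)
            · apply Multiplicative.toAdd.injective
              show Multiplicative.toAdd (y * g ^ (-((E : ℤ) * q'))).right = 0
              rw [SemidirectProduct.mul_right, toAdd_mul, hright, hq']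
              ring
          have h4 : y = (y * g ^ (-((E : ℤ) * q'))) * g ^ ((E : ℤ) * q') := by
            rw [mul_assoc, ← zpow_add, neg_add_cancel, zpow_zero, mul_one]
          rw [h4]
          exact mul_mem (Subgroup.mem_sup_right h3)
            (Subgroup.mem_sup_left (Subgroup.zpow_mem_zpowers g _))
        have h2 : (VV φ (E * k₀.natAbs)).FiniteIndex :=
          VV_finite φ (Nat.mul_ne_zero (by omega) (by omega))
        exact Subgroup.finiteIndex_of_le h1
      · intro hhK
        have hxK : x ∈ Subgroup.zpowers g ⊔ W₀ :=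
          mul_mem hhK (Subgroup.mem_sup_left (Subgroup.zpow_mem_zpowers g _))
        have h1 : x ∈ ((Subgroup.zpowers g : Set (FreeGroup α ⋊[φ] Multiplicative ℤ)) *
            (W₀ : Set (FreeGroup α ⋊[φ] Multiplicative ℤ))) := by
          rw [← Subgroup.mul_normal]
          exact hxK
        obtain ⟨u, hu, w, hw, huw⟩ := Set.mem_mul.1 h1
        obtain ⟨i, hi⟩ := Subgroup.mem_zpowers_iff.1 hu
        have hwr : w.right = 1 := hw.2
        have h2 : i * k₀ = 0 := by
          have h3 := hxr
          rw [← huw, SemidirectProduct.mul_right, hwr, mul_one, ← hi, hright] at h3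
          exact h3
        have h3 : i = 0 := by
          rcases mul_eq_zero.1 h2 with h3 | h3
          · exact h3
          · exact absurd h3 h0
        rw [h3, zpow_zero] at hi
        rw [← hi, one_mul] at huw
        rw [← huw] at hxW
        exact hxW hw.1

end Q170.GG
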