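import Pool.Agent.Q170.GG.Sep

/-!
# The tree of the free group of rank three over the cyclic subgroup of the first generator
-/

set_option autoImplicit false

open Set Function

namespace Q170.GG

/-- letters -/
abbrev A3 : Type := Fin 3 × Bool

/-- the free group of rank three -/
abbrev F3 : Type := FreeGroup (Fin 3)

/-- one letter words -/
def lt (x : A3) : F3 := FreeGroup.mk [x]

def invA (x : A3) : A3 := (x.1, !x.2)

theorem lt_inv (x : A3) : (lt x)⁻¹ = lt (invA x) := by
  simp [lt, FreeGroup.invRev, invA]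

theorem toWord_lt_mul (x : A3) (v : F3) : (lt x * v).toWord = FreeGroup.reduce (x :: v.toWord) := by
  rw [FreeGroup.toWord_mul]
  unfold lt
  rw [FreeGroup.toWord_mk, FreeGroup.reduce_singleton]
  rfl

/-- a connected graph in which every edge joins a vertex to its parent is a tree -/
theorem isTree_of_parent {V : Type} (T : SimpleGraph V) (β : V → ℕ) (par : V → V)
    (h : ∀ u v, T.Adj u v → (β v < β u ∧ v = par u) ∨ (β u < β v ∧ u = par v)) (hc : T.Connected) :
    T.IsTree := by
  classical
  refine ⟨hc, fun v c hcyc => ?_⟩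
  obtain ⟨u, hu, hmax⟩ := c.support.toFinset.exists_max_image β
    ⟨v, List.mem_toFinset.2 c.start_mem_support⟩
  have hu' : u ∈ c.support := List.mem_toFinset.1 hu
  have hc' := hcyc.rotate hu'
  have hmax' : ∀ w ∈ (c.rotate u hu').support, β w ≤ β u := fun w hw =>
    hmax w (List.mem_toFinset.2 ((SimpleGraph.Walk.mem_support_rotate_iff c u hu').1 hw))
  have hnil := hc'.not_nil
  have a1 := (c.rotate u hu').adj_snd hnil
  have a2 := (c.rotate u hu').adj_penultimate hnil
  have b1 := hmax' _ ((c.rotate u hu').getVert_mem_support 1)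
  have b2 := hmax' _ ((c.rotate u hu').getVert_mem_support ((c.rotate u hu').length - 1))
  have e1 : (c.rotate u hu').snd = par u := by
    rcases h _ _ a1 with h1 | h1
    · exact h1.2
    · exact absurd h1.1 (not_lt.2 b1)
  have e2 : (c.rotate u hu').penultimate = par u := by
    rcases h _ _ a2 with h1 | h1
    · exact absurd h1.1 (not_lt.2 b2)
    · exact h1.2
  exact hc'.snd_ne_penultimate (e1.trans e2.symm)

/-- the cyclic subgroup generated by the first generator -/
abbrev HA : Subgroup F3 := Subgroup.zpowers (lt (0, true))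

/-- cosets -/
abbrev QV : Type := F3 ⧸ HA

theorem word_cases (v : F3) (x : A3) : (∃ m, v.toWord = invA x :: m ∧ (lt x * v).toWord = m) ∨
    (lt x * v).toWord = x :: v.toWord := by
  rw [toWord_lt_mul, FreeGroup.reduce.cons, FreeGroup.reduce_toWord]
  rcases hv : v.toWord with _ | ⟨y, m⟩
  · right; rfl
  · by_cases hxy : x.1 = y.1 ∧ x.2 = !y.2
    · left
      refine ⟨m, ?_, ?_⟩
      · have : y = invA x := by
          unfold invA
          apply Prod.ext
          · exact hxy.1.symm
          · simp only; rw [hxy.2]; simp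
        rw [this]
      · simp only; rw [if_pos hxy]
    · right
      simp only; rw [if_neg hxy]

/-- strip the leading powers of the first generator -/
def st (v : F3) : List A3 := v.toWord.dropWhile (fun x => decide (x.1 = 0))

theorem st_lt_mul (v : F3) {x : A3} (hx : x.1 = 0) : st (lt x * v) = st v := by
  unfold st
  rcases word_cases v x with ⟨m, h1, h2⟩ | h1
  · rw [h1, h2, List.dropWhile_cons_of_pos]
    simp [invA, hx]
  · rw [h1, List.dropWhile_cons_of_pos]
    simp [hx]

theorem st_mul {c : F3} (hc : c ∈ HA) (v : F3) : st (c * v) = st v := by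
  obtain ⟨k, rfl⟩ := Subgroup.mem_zpowers_iff.1 hc
  induction k using Int.induction_on with
  | zero => simp
  | succ n ih =>
    rw [add_comm, zpow_add, zpow_one, mul_assoc, st_lt_mul _ rfl]
    exact ih (Subgroup.mem_zpowers_iff.2 ⟨_, rfl⟩)
  | pred n ih =>
    have e : (-(n:ℤ) - 1) = -1 + -(n:ℤ) := by ring
    have e2 : (lt (0, true))⁻¹ = lt (0, false) := lt_inv (0, true)
    rw [e, zpow_add, zpow_neg_one, mul_assoc, e2, st_lt_mul _ rfl]
    exact ih (Subgroup.mem_zpowers_iff.2 ⟨_, rfl⟩)

/-- normal form of a coset -/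
def NF (X : QV) : List A3 := Quotient.liftOn' X (fun w => st w⁻¹) (by
  intro w w' h
  rw [QuotientGroup.leftRel_apply] at h
  have e : w'⁻¹ = (w⁻¹ * w')⁻¹ * w⁻¹ := by group
  rw [e, st_mul (inv_mem h)])

theorem NF_mk (w : F3) : NF (w : QV) = st w⁻¹ := rfl

/-- parent of a coset -/
def pq (X : QV) : QV := match NF X with
  | [] => X
  | _ :: m => (((FreeGroup.mk m : F3)⁻¹ : F3) : QV)

theorem pq_cons {X : QV} {x : A3} {m : List A3} (h : NF X = x :: m) :
    pq X = (((FreeGroup.mk m : F3)⁻¹ : F3) : QV) := by
  unfold pq; rw [h]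

/-- the relation defining the tree -/
def rel (X Y : QV) : Prop := ∃ (w : F3) (i : Fin 3), i ≠ 0 ∧ X = (w : QV) ∧
  Y = ((w * lt (i, true) : F3) : QV)

/-- the tree -/
def TQ : SimpleGraph QV := SimpleGraph.fromRel rel

theorem rel_parent {X Y : QV} (h : rel X Y) :
    ((NF Y).length < (NF X).length ∧ Y = pq X) ∨ ((NF X).length < (NF Y).length ∧ X = pq Y) := by
  obtain ⟨w, i, hi, rfl, rfl⟩ := h
  have e1 : (w * lt (i, true))⁻¹ = lt (i, false) * w⁻¹ := by
    rw [mul_inv_rev, lt_inv]; rfl
  have hdrop : ∀ l : List A3, (l.dropWhile (fun x => decide (x.1 = 0))).length ≤ l.length :=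
    fun l => (List.dropWhile_sublist _).length_le
  have hdw : ∀ (b : Bool) (m : List A3),
      ((i, b) :: m).dropWhile (fun x => decide (x.1 = 0)) = (i, b) :: m := by
    intro b m
    rw [List.dropWhile_cons_of_neg]
    simp [hi]
  rcases word_cases w⁻¹ (i, false) with ⟨m, h1, h2⟩ | h1
  · left
    have h3 : NF (w : QV) = (i, true) :: m := by
      rw [NF_mk, st, h1]
      exact hdw true m
    have h4 : NF ((w * lt (i, true) : F3) : QV) = m.dropWhile (fun x => decide (x.1 = 0)) := by
      rw [NF_mk, e1, st, h2]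
    refine ⟨?_, ?_⟩
    · rw [h3, h4, List.length_cons]
      exact Nat.lt_succ_of_le (hdrop m)
    · rw [pq_cons h3]
      congr 1
      rw [← h2, FreeGroup.mk_toWord, ← e1, inv_inv]
  · right
    have h3 : NF ((w * lt (i, true) : F3) : QV) = (i, false) :: w⁻¹.toWord := by
      rw [NF_mk, e1, st, h1]
      exact hdw false _
    have h4 : NF (w : QV) = w⁻¹.toWord.dropWhile (fun x => decide (x.1 = 0)) := rfl
    refine ⟨?_, ?_⟩
    · rw [h3, h4, List.length_cons]
      exact Nat.lt_succ_of_le (hdrop w⁻¹.toWord)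
    · rw [pq_cons h3, FreeGroup.mk_toWord, inv_inv]

theorem rel_ne {X Y : QV} (h : rel X Y) : X ≠ Y := by
  intro he
  subst he
  rcases rel_parent h with h1 | h1 <;> exact absurd h1.1 (lt_irrefl _)

theorem adj_iff {X Y : QV} : TQ.Adj X Y ↔ rel X Y ∨ rel Y X := by
  unfold TQ
  rw [SimpleGraph.fromRel_adj]
  constructor
  · exact fun h => h.2
  · rintro (h | h)
    · exact ⟨rel_ne h, Or.inl h⟩
    · exact ⟨(rel_ne h).symm, Or.inr h⟩

theorem mk_coset {w c : F3} (hc : c ∈ HA) : ((w * c : F3) : QV) = (w : QV) :=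
  (QuotientGroup.eq.2 (by simpa using hc)).symm

theorem TQ_conn : TQ.Connected := by
  have key : ∀ L : List A3, TQ.Reachable ((1 : F3) : QV) (((FreeGroup.mk L : F3)⁻¹ : F3) : QV) := by
    intro L
    induction L with
    | nil =>
      have : (FreeGroup.mk ([] : List A3) : F3)⁻¹ = 1 := inv_one
      rw [this]
    | cons x L ih =>
      have e : (FreeGroup.mk (x :: L) : F3)⁻¹ = (FreeGroup.mk L)⁻¹ * lt (invA x) := by
        have : (FreeGroup.mk (x :: L) : F3) = lt x * FreeGroup.mk L := rfl
        rw [this, mul_inv_rev, lt_inv]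
      rw [e]
      refine ih.trans ?_
      obtain ⟨i, b⟩ := x
      by_cases hi : i = 0
      · subst hi
        have : lt (invA (0, b)) ∈ HA := by
          cases b
          · exact Subgroup.mem_zpowers _
          · have : lt (invA (0, true)) = (lt (0, true))⁻¹ := (lt_inv (0, true)).symm
            rw [this]
            exact inv_mem (Subgroup.mem_zpowers _)
        show TQ.Reachable _ (((FreeGroup.mk L)⁻¹ * lt (invA (0, b)) : F3) : QV)
        rw [mk_coset this]
      · apply SimpleGraph.Adj.reachable
        rw [adj_iff]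
        cases b
        · left
          exact ⟨_, i, hi, rfl, rfl⟩
        · right
          refine ⟨(FreeGroup.mk L)⁻¹ * lt (i, false), i, hi, rfl, ?_⟩
          have : lt (i, false) * lt (i, true) = 1 := by
            have : lt (i, false) = (lt (i, true))⁻¹ := (lt_inv (i, true)).symm
            rw [this, inv_mul_cancel]
          rw [mul_assoc, this, mul_one]
  have : Nonempty QV := ⟨((1 : F3) : QV)⟩
  refine ⟨fun X Y => ?_⟩
  have h1 : ∀ X : QV, TQ.Reachable ((1 : F3) : QV) X := by
    intro X
    induction X using QuotientGroup.induction_on with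
    | H w =>
      have := key w⁻¹.toWord
      rwa [FreeGroup.mk_toWord, inv_inv] at this
  exact (h1 X).symm.trans (h1 Y)

theorem TQ_tree : TQ.IsTree := by
  refine isTree_of_parent TQ (fun X => (NF X).length) pq ?_ TQ_conn
  intro X Y h
  rcases adj_iff.1 h with h1 | h1
  · exact rel_parent h1
  · exact (rel_parent h1).symm

end Q170.GG
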